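import Pool.Agent.H71.FX.Targets2

/-! Row AP of fxm_modules: the prefix with one universal quantifier at the beginning, disjoint unions. -/

set_option autoImplicit false

namespace Pool.Agent.H76.FX

open Pool.Agent.H71.FX Pool.Agent.H71.PF

section
variable {α α' β : Type} (h1 : α → β) (h2 : α' → β)

open Classical in
private noncomputable def gf (d : β) (f1 : ℕ → List α → α) (f2 : ℕ → List α' → α') (i : ℕ)
    (l' : List β) : β :=
  if h : ∃ l : List α, l ≠ [] ∧ l' = l.map h1 then h1 (f1 i h.choose)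
  else if h : ∃ l : List α', l ≠ [] ∧ l' = l.map h2 then h2 (f2 i h.choose) else d

private def gR (R1 : ℕ → List α → Prop) (R2 : ℕ → List α' → Prop) (i : ℕ) (l' : List β) : Prop :=
  (∃ l, l ≠ [] ∧ l' = l.map h1 ∧ R1 i l) ∨ ∃ l, l ≠ [] ∧ l' = l.map h2 ∧ R2 i l

private theorem dis (hd : ∀ a b, h1 a ≠ h2 b) (l : List α) (l' : List α') (hl : l ≠ []) :
    l.map h1 ≠ l'.map h2 := by
  cases l with
  | nil => exact absurd rfl hl
  | cons a l =>
    cases l' with
    | nil => simp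
    | cons b l' =>
      intro h
      simp only [List.map_cons, List.cons.injEq] at h
      exact hd a b h.1

variable {h1 h2}

private theorem gf1 (i1 : Function.Injective h1) (d : β) (f1 : ℕ → List α → α)
    (f2 : ℕ → List α' → α') (i : ℕ) (l : List α) (hl : l ≠ []) :
    gf h1 h2 d f1 f2 i (l.map h1) = h1 (f1 i l) := by
  have h : ∃ l0 : List α, l0 ≠ [] ∧ l.map h1 = l0.map h1 := ⟨l, hl, rfl⟩
  unfold gf
  rw [dif_pos h]
  have h3 := h.choose_spec.2
  have h4 := List.map_injective_iff.2 i1 h3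
  rw [← h4]

private theorem gf2 (i2 : Function.Injective h2) (hd : ∀ a b, h1 a ≠ h2 b) (d : β)
    (f1 : ℕ → List α → α) (f2 : ℕ → List α' → α') (i : ℕ) (l : List α') (hl : l ≠ []) :
    gf h1 h2 d f1 f2 i (l.map h2) = h2 (f2 i l) := by
  have h0 : ¬ ∃ l0 : List α, l0 ≠ [] ∧ l.map h2 = l0.map h1 := by
    rintro ⟨l0, h3, h4⟩
    exact dis h1 h2 hd l0 l h3 h4.symm
  have h : ∃ l0 : List α', l0 ≠ [] ∧ l.map h2 = l0.map h2 := ⟨l, hl, rfl⟩
  unfold gf
  rw [dif_neg h0, dif_pos h]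
  have h3 := h.choose_spec.2
  have h4 := List.map_injective_iff.2 i2 h3
  rw [← h4]

private theorem gR1 (i1 : Function.Injective h1) (hd : ∀ a b, h1 a ≠ h2 b)
    (R1 : ℕ → List α → Prop) (R2 : ℕ → List α' → Prop) (i : ℕ) (l : List α) (hl : l ≠ []) :
    gR h1 h2 R1 R2 i (l.map h1) ↔ R1 i l := by
  constructor
  · rintro (⟨l0, -, h3, h4⟩ | ⟨l0, -, h3, -⟩)
    · rwa [List.map_injective_iff.2 i1 h3]
    · exact absurd h3 (dis h1 h2 hd l l0 hl)
  · intro h
    exact Or.inl ⟨l, hl, rfl, h⟩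

private theorem gR2 (i2 : Function.Injective h2) (hd : ∀ a b, h1 a ≠ h2 b)
    (R1 : ℕ → List α → Prop) (R2 : ℕ → List α' → Prop) (i : ℕ) (l : List α') (hl : l ≠ []) :
    gR h1 h2 R1 R2 i (l.map h2) ↔ R2 i l := by
  constructor
  · rintro (⟨l0, h2', h3, -⟩ | ⟨l0, -, h3, h4⟩)
    · exact absurd h3.symm (dis h1 h2 hd l0 l h2')
    · rwa [List.map_injective_iff.2 i2 h3]
  · intro h
    exact Or.inr ⟨l, hl, rfl, h⟩

end

/-- one half: the witnesses for the elements in the image of `h` -/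
private theorem half (fe : T_FE) (fv : T_FV) (ss : T_SS) {α β : Type} (h : α → β)
    (hi : Function.Injective h) (F : ℕ → ℕ → Prop) (r b : ℕ) (φ : QF) (hF : ∀ i, ¬ F i 0)
    (hv : φ.Vars (b + 1)) (hφ : φ.Voc F r) (f : ℕ → List α → α) (R : ℕ → List α → Prop)
    (f' : ℕ → List β → β) (R' : ℕ → List β → Prop)
    (hf : ∀ i l, l ≠ [] → f' i (l.map h) = h (f i l))
    (hR : ∀ i l, l ≠ [] → (R' i (l.map h) ↔ R i l))
    (hm : ∀ v : ℕ → α, Pre f R φ (true :: List.replicate b false) 0 v) (v : ℕ → β) (a : α) :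
    Pre f' R' φ (List.replicate b false) 1 (Function.update v 0 (h a)) := by
  have h1 : Pre f R φ (List.replicate b false) 1 (Function.update (fun _ => a) 0 a) :=
    hm (fun _ => a) a
  obtain ⟨c, hc, hs⟩ := (fe α f R φ 1 b _).1 h1
  refine (fe β f' R' φ 1 b _).2 ⟨fun i => if i < b + 1 then h (c i) else v i, ?_, ?_⟩
  · rintro i (h2 | h2)
    · obtain rfl : i = 0 := by omega
      have h3 := hc 0 (Or.inl (by omega))
      rw [Function.update_self] at h3
      rw [Function.update_self]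
      simp [h3]
    · rw [Function.update_of_ne (by omega)]
      simp only
      rw [if_neg (by omega)]
  · rw [fv β f' R' φ (b + 1) _ (fun i => h (c i)) hv (fun i hi => if_pos hi)]
    refine (ss α β h hi f f' R R' F r ?_ ?_ φ hφ c).2 hs
    · intro i l hl
      refine hf i l ?_
      rintro rfl
      exact hF i hl
    · intro i l hl _
      refine hR i l ?_
      rintro rfl
      simp at hl

theorem pf_AP (fe : T_FE) (fv : T_FV) (ss : T_SS) : T_AP := by
  rintro F r b φ hF hv hφ n n' ⟨hn, f1, R1, hm1⟩ ⟨hn', f2, R2, hm2⟩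
  have hd : ∀ (x : Fin n) (y : Fin n'), Fin.castAdd n' x ≠ Fin.natAdd n y := by
    intro x y h
    have h1 := congrArg Fin.val h
    simp only [Fin.val_castAdd, Fin.val_natAdd] at h1
    have := x.2
    omega
  have i1 : Function.Injective (Fin.castAdd n' : Fin n → Fin (n + n')) :=
    Fin.castAdd_injective n n'
  have i2 : Function.Injective (Fin.natAdd n : Fin n' → Fin (n + n')) :=
    Fin.natAdd_injective n' n
  refine ⟨by omega, gf (Fin.castAdd n') (Fin.natAdd n) ⟨0, by omega⟩ f1 f2,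
    gR (Fin.castAdd n') (Fin.natAdd n) R1 R2, fun v x => ?_⟩
  refine Fin.addCases (fun a => ?_) (fun a => ?_) x
  · exact half fe fv ss _ i1 F r b φ hF hv hφ f1 R1 _ _
      (fun i l hl => gf1 i1 _ f1 f2 i l hl) (fun i l hl => gR1 i1 hd R1 R2 i l hl) hm1 v a
  · exact half fe fv ss _ i2 F r b φ hF hv hφ f2 R2 _ _
      (fun i l hl => gf2 i2 hd _ f1 f2 i l hl) (fun i l hl => gR2 i2 hd R1 R2 i l hl) hm2 v a

end Pool.Agent.H76.FX
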