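import Pool.Agent.H71.FX.Targets

/-! Row NB of fxm_modules: numbers are bounded. -/

set_option autoImplicit false

namespace Pool.Agent.H76.FX

open Pool.Agent.H71.FX Pool.Agent.H71.PF Pool.Agent.H8.PL

theorem pf_NB : T_NB := by
  intro a w
  unfold num
  induction w with
  | zero => simp
  | succ w ih =>
    rw [Finset.sum_range_succ, pow_succ]
    split_ifs <;> omega

end Pool.Agent.H76.FX
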